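import Mathlib

set_option autoImplicit false

open Set Filter Topology TopologicalSpace

namespace Pool.Agent.H.MP_63c1c3_gt

lemma main {X Y S : Type} [TopologicalSpace X] [TopologicalSpace Y] [SeparableSpace X]
    [SeparableSpace Y] [TopologicalSpace S] (v : S → X × Y → ℝ) (hv : Function.Injective v)
    (h1 : ∀ s x, Continuous fun y => v s (x, y)) (h2 : ∀ s y, Continuous fun x => v s (x, y))
    (h3 : ∀ p, Continuous fun s => v s p) (K : Set S) (hK : IsCompact K) : MetrizableSpace K := by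
  obtain ⟨D, d1, d2⟩ := exists_countable_dense X
  obtain ⟨E, e1, e2⟩ := exists_countable_dense Y
  haveI := d1.to_subtype
  haveI := e1.to_subtype
  haveI := isCompact_iff_compactSpace.1 hK
  have h4 : Continuous fun (s : K) (p : D × E) => v s (p.1, p.2) :=
    continuous_pi fun p => (h3 _).comp continuous_subtype_val
  refine (h4.isClosedEmbedding fun s t h => Subtype.ext (hv ?_)).isEmbedding.metrizableSpace
  funext ⟨x, y⟩
  refine congrFun ((h2 s y).ext_on d2 (h2 t y) fun x hx => ?_) x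
  exact congrFun ((h1 s x).ext_on e2 (h1 t x) fun y hy => congrFun h (⟨x, hx⟩, ⟨y, hy⟩)) y

lemma cross {X Y : Type} [TopologicalSpace X] [TopologicalSpace Y] [T1Space X] [T1Space Y]
    {f : X × Y → ℝ} (h1 : ∀ x, Continuous fun y => f (x, y))
    (h2 : ∀ y, Continuous fun x => f (x, y)) (c : X × Y) {W : Set ℝ} (hW : IsOpen W)
    (hc : f c ∈ W) : ∃ O, IsOpen O ∧ c ∈ O ∧ ∀ p ∈ closure (O ∩ {p | p.2 = c.2 ∨ p.1 = c.1}),
      f p ∈ W := by
  obtain ⟨V, v1, v2, v3⟩ := exists_mem_nhds_isClosed_subset (hW.mem_nhds hc)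
  refine ⟨{x | f (x, c.2) ∈ interior V} ×ˢ {y | f (c.1, y) ∈ interior V},
    (isOpen_interior.preimage (h2 _)).prod (isOpen_interior.preimage (h1 _)),
    ⟨mem_interior_iff_mem_nhds.2 v1, mem_interior_iff_mem_nhds.2 v1⟩, fun p hp => ?_⟩
  have h3 := closure_minimal (t := {x | f (x, c.2) ∈ V} ×ˢ {c.2} ∪ {c.1} ×ˢ {y | f (c.1, y) ∈ V})
    (fun q hq => hq.2.imp (⟨interior_subset (s := V) hq.1.1, ·⟩) (⟨·, interior_subset (s := V) hq.1.2⟩))
    (((v2.preimage (h2 _)).prod isClosed_singleton).union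
      (isClosed_singleton.prod (v2.preimage (h1 _)))) hp
  obtain ⟨x, y⟩ := p
  rcases h3 with ⟨h, rfl⟩ | ⟨rfl, h⟩ <;> exact v3 h

end Pool.Agent.H.MP_63c1c3_gt
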